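import Pool.Agent.helper73.AD.Basic

/-!
TB: a proper local homeomorphism onto an open box, injective over one point, is bijective.
-/

namespace Pool.Agent.helper73.AD

open scoped BigOperators Topology

section

variable {K : Type} [Fintype K]

/-- a margin around a point of the open box -/
theorem TB_margin (l y : K → ℝ) (hy : ∀ k, |y k| < l k) :
    ∃ c : ℝ, 0 < c ∧ ∀ k, |y k| < l k - c := by
  classical
  rcases isEmpty_or_nonempty K with hK | hK
  · exact ⟨1, one_pos, fun k => (hK.false k).elim⟩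
  · obtain ⟨k0, hk0⟩ := Finite.exists_min (fun k => l k - |y k|)
    refine ⟨(l k0 - |y k0|) / 2, by have := hy k0; linarith, fun k => ?_⟩
    have h1 : l k0 - |y k0| ≤ l k - |y k| := hk0 k
    have h2 := hy k0
    linarith

/-- the compact pieces -/
theorem TB_compact (f : (K → ℝ) → (K → ℝ)) (l : K → ℝ) (hc : Continuous f)
    (hp : ∀ c : ℝ, 0 < c → ∃ R : ℝ, ∀ T, (∀ k, |f T k| ≤ l k - c) → ∀ k, |T k| ≤ R)
    (c : ℝ) (hc0 : 0 < c) : IsCompact {T : K → ℝ | ∀ k, |f T k| ≤ l k - c} := by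
  obtain ⟨R, hR⟩ := hp c hc0
  refine (isCompact_closedBall (0 : K → ℝ) (max R 0)).of_isClosed_subset ?_ ?_
  · have : {T : K → ℝ | ∀ k, |f T k| ≤ l k - c} = ⋂ k, {T : K → ℝ | |f T k| ≤ l k - c} := by
      ext T; simp
    rw [this]
    refine isClosed_iInter fun k => ?_
    exact isClosed_le (((continuous_apply k).comp hc).abs) continuous_const
  · intro T hT
    rw [mem_closedBall_zero_iff]
    refine (pi_norm_le_iff_of_nonneg (le_max_right _ _)).mpr fun k => ?_
    exact (hR T hT k).trans (le_max_left _ _)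

omit [Fintype K] in
theorem TB_box_preconnected (l : K → ℝ) : IsPreconnected {y : K → ℝ | ∀ k, |y k| < l k} := by
  have hconv : Convex ℝ {y : K → ℝ | ∀ k, |y k| < l k} := by
    intro x hx y hy a b ha hb hab k
    have h1 := hx k
    have h2 := hy k
    simp only [Pi.add_apply, Pi.smul_apply, smul_eq_mul]
    rw [abs_lt] at *
    constructor
    · rcases lt_or_eq_of_le ha with h | h
      · nlinarith [mul_lt_mul_of_pos_left h1.1 h, mul_le_mul_of_nonneg_left h2.1.le hb]
      · have hb' : b = 1 := by linarith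
        rw [← h, hb']; linarith
    · rcases lt_or_eq_of_le ha with h | h
      · nlinarith [mul_lt_mul_of_pos_left h1.2 h, mul_le_mul_of_nonneg_left h2.2.le hb]
      · have hb' : b = 1 := by linarith
        rw [← h, hb']; linarith
  exact hconv.isPreconnected

end

theorem TB : TB_stmt := by
  intro K _ f l hc hmap hinj hbox hprop hone
  set B : Set (K → ℝ) := {y : K → ℝ | ∀ k, |y k| < l k} with hB
  have hBc : IsPreconnected B := TB_box_preconnected l
  have hVopen : ∀ c : ℝ, IsOpen {y : K → ℝ | ∀ k, |y k| < l k - c} := by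
    intro c
    have : {y : K → ℝ | ∀ k, |y k| < l k - c} = ⋂ k, {y : K → ℝ | |y k| < l k - c} := by
      ext T; simp
    rw [this]
    exact isOpen_iInter_of_finite fun k => isOpen_lt (continuous_apply k).abs continuous_const
  -- the image
  have himg : B ⊆ Set.range f := by
    refine hBc.subset_of_closure_inter_subset ?_ ?_ ?_
    · rw [isOpen_iff_mem_nhds]
      rintro _ ⟨T, rfl⟩
      rw [← hmap T]
      exact Filter.mem_map.mpr (Filter.univ_mem' fun x => ⟨x, rfl⟩)
    · exact ⟨f 0, fun k => hbox 0 k, ⟨0, rfl⟩⟩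
    · rintro y ⟨hy, hyB⟩
      obtain ⟨c, hc0, hyc⟩ := TB_margin l y hyB
      have hK := (TB_compact f l hc hprop c hc0).image hc
      have h1 : y ∈ closure (Set.range f ∩ {y : K → ℝ | ∀ k, |y k| < l k - c}) := by
        rw [mem_closure_iff_nhds] at hy ⊢
        intro t ht
        obtain ⟨x, hx1, hx2⟩ := hy _ (Filter.inter_mem ht ((hVopen c).mem_nhds hyc))
        exact ⟨x, hx1.1, hx2, hx1.2⟩
      have h2 : closure (Set.range f ∩ {y : K → ℝ | ∀ k, |y k| < l k - c})
          ⊆ f '' {T : K → ℝ | ∀ k, |f T k| ≤ l k - c} := by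
        refine closure_minimal ?_ hK.isClosed
        rintro _ ⟨⟨T, rfl⟩, hT⟩
        exact ⟨T, fun k => (hT k).le, rfl⟩
      obtain ⟨T, -, hT⟩ := h2 h1
      exact ⟨T, hT⟩
  -- double points
  set M : Set (K → ℝ) := {y | ∃ T T' : K → ℝ, T ≠ T' ∧ f T = y ∧ f T' = y} with hM
  have hE : IsClosed {p : (K → ℝ) × (K → ℝ) | f p.1 = f p.2 ∧ p.1 ≠ p.2} := by
    rw [← isOpen_compl_iff, isOpen_iff_mem_nhds]
    rintro ⟨T, T'⟩ hp
    by_cases hTT : T = T'
    · subst hTT
      obtain ⟨U, hU, hUi⟩ := hinj T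
      filter_upwards [prod_mem_nhds hU hU] with q hq hq2
      exact hq2.2 (hUi hq.1 hq.2 hq2.1)
    · have hne : f T ≠ f T' := fun h => hp ⟨h, hTT⟩
      have hopen : IsOpen {p : (K → ℝ) × (K → ℝ) | f p.1 ≠ f p.2} :=
        isOpen_ne_fun (hc.comp continuous_fst) (hc.comp continuous_snd)
      filter_upwards [hopen.mem_nhds hne] with q hq hq2
      exact hq hq2.1
  have hnoM : ¬ (B ∩ M).Nonempty := by
    intro hne
    have hsub : B ⊆ M := by
      refine hBc.subset_of_closure_inter_subset ?_ hne ?_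
      · rw [isOpen_iff_mem_nhds]
        rintro y ⟨T, T', hTT, h1, h2⟩
        obtain ⟨U, U', hU, hU', hTU, hTU', hd⟩ := t2_separation hTT
        have h3 : f '' U ∈ 𝓝 y := by
          rw [← h1, ← hmap T]; exact Filter.image_mem_map (hU.mem_nhds hTU)
        have h4 : f '' U' ∈ 𝓝 y := by
          rw [← h2, ← hmap T']; exact Filter.image_mem_map (hU'.mem_nhds hTU')
        filter_upwards [h3, h4] with z hz hz'
        obtain ⟨a, ha, rfl⟩ := hz
        obtain ⟨a', ha', hz⟩ := hz'
        exact ⟨a, a', fun h => Set.disjoint_left.mp hd ha (h ▸ ha'), rfl, hz⟩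
      · rintro y ⟨hy, hyB⟩
        obtain ⟨c, hc0, hyc⟩ := TB_margin l y hyB
        have hCc := TB_compact f l hc hprop c hc0
        have hK := ((hCc.prod hCc).inter_right hE).image (hc.comp continuous_fst)
        have h1 : y ∈ closure (M ∩ {y : K → ℝ | ∀ k, |y k| < l k - c}) := by
          rw [mem_closure_iff_nhds] at hy ⊢
          intro t ht
          obtain ⟨x, hx1, hx2⟩ := hy _ (Filter.inter_mem ht ((hVopen c).mem_nhds hyc))
          exact ⟨x, hx1.1, hx2, hx1.2⟩
        have h2 := closure_minimal (s := M ∩ {y : K → ℝ | ∀ k, |y k| < l k - c}) ?_ hK.isClosed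
        · obtain ⟨⟨T, T'⟩, hT, hTy⟩ := h2 h1
          refine ⟨T, T', hT.2.2, hTy, ?_⟩
          rw [← hT.2.1]; exact hTy
        · rintro z ⟨⟨T, T', hTT, h3, h4⟩, hz⟩
          refine ⟨(T, T'), ⟨⟨fun k => ?_, fun k => ?_⟩, ?_, hTT⟩, h3⟩
          · rw [h3]; exact (hz k).le
          · rw [h4]; exact (hz k).le
          · rw [h3, h4]
    obtain ⟨y0, hy0, huni⟩ := hone
    obtain ⟨T, T', hTT, h1, h2⟩ := hsub hy0
    exact hTT (huni T T' h1 h2)
  intro y hy
  obtain ⟨T, hT⟩ := himg hy
  refine ⟨T, hT, fun T' hT' => ?_⟩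
  by_contra hne
  exact hnoM ⟨y, hy, T, T', fun h => hne h.symm, hT, hT'⟩

end Pool.Agent.helper73.AD
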