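import Pool.Agent.helper73.AD.Basic

/-!
YB: the y-coordinates are a bijection of the family onto the box.
-/

namespace Pool.Agent.helper73.AD

open scoped BigOperators Topology

section

variable {J K : Type} [Fintype J] [DecidableEq J] [Fintype K] [DecidableEq K]

/-- the y-coordinates as a continuous linear map -/
noncomputable def YB_A (S : Sys J K) : PS J →L[ℝ] (K → ℝ) :=
  ContinuousLinearMap.pi (fun k => omL (S.e k))

theorem YB_A_apply (S : Sys J K) (z : PS J) (k : K) : YB_A S z k = om (S.e k) z := rfl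

/-- the derivative of the family -/
noncomputable def YB_D (S : Sys J K) (Φ : SFam S) (T : K → ℝ) : (K → ℝ) →L[ℝ] PS J :=
  ∑ k, (ContinuousLinearMap.proj k : (K → ℝ) →L[ℝ] ℝ).smulRight (S.X k (Φ.Z T))

theorem YB_D_apply (S : Sys J K) (Φ : SFam S) (T w : K → ℝ) :
    YB_D S Φ T w = S.Xv w (Φ.Z T) := by
  simp [YB_D, Sys.Xv]

theorem YB_Z_continuous (S : Sys J K) (Φ : SFam S) : Continuous Φ.Z :=
  continuous_iff_continuousAt.mpr fun T => (Φ.dZ T).continuousAt

theorem YB_X_continuous (S : Sys J K) (Φ : SFam S) (k : K) :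
    Continuous fun T => S.X k (Φ.Z T) := by
  have h1 : ContinuousOn (fderiv ℝ (S.H k)) (Cone J) :=
    (S.smooth k).continuousOn_fderiv_of_isOpen isOpen_Cone (by norm_num)
  have h2 : Continuous fun T => fderiv ℝ (S.H k) (Φ.Z T) :=
    h1.comp_continuous (YB_Z_continuous S Φ) fun T => Φ.mem T
  exact sgL.continuous.comp h2

theorem YB_D_continuous (S : Sys J K) (Φ : SFam S) : Continuous (YB_D S Φ) := by
  unfold YB_D
  refine continuous_finsetSum _ fun k _ => ?_
  exact (ContinuousLinearMap.smulRightL ℝ (K → ℝ) (PS J)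
    (ContinuousLinearMap.proj k)).continuous.comp (YB_X_continuous S Φ k)

theorem YB_Z_strict (S : Sys J K) (Φ : SFam S) (T : K → ℝ) :
    HasStrictFDerivAt Φ.Z (YB_D S Φ T) T :=
  hasStrictFDerivAt_of_hasFDerivAt_of_continuousAt
    (Filter.Eventually.of_forall fun T => Φ.dZ T) (YB_D_continuous S Φ).continuousAt

/-- the y-coordinates of the family -/
noncomputable def YB_f (S : Sys J K) (Φ : SFam S) (T : K → ℝ) : K → ℝ := YB_A S (Φ.Z T)

theorem YB_f_apply (S : Sys J K) (Φ : SFam S) (T : K → ℝ) (k : K) :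
    YB_f S Φ T k = om (S.e k) (Φ.Z T) := rfl

theorem YB_injective (hNS : NS_stmt) (S : Sys J K) (Φ : SFam S) (T : K → ℝ) :
    Function.Injective ((YB_A S).comp (YB_D S Φ T)).toLinearMap := by
  refine (injective_iff_map_eq_zero _).mpr fun w hw => ?_
  refine hNS J K S Φ T w fun k => ?_
  have h := congrFun hw k
  have h2 : om (S.e k) (S.Xv w (Φ.Z T)) = 0 := by
    rw [← YB_D_apply, ← YB_A_apply]; exact h
  rw [om_anti, h2, neg_zero]

/-- the derivative of the y-coordinates as an equivalence -/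
noncomputable def YB_equiv (hNS : NS_stmt) (S : Sys J K) (Φ : SFam S) (T : K → ℝ) :
    (K → ℝ) ≃L[ℝ] (K → ℝ) :=
  (LinearEquiv.ofInjectiveEndo ((YB_A S).comp (YB_D S Φ T)).toLinearMap
    (YB_injective hNS S Φ T)).toContinuousLinearEquiv

theorem YB_f_strict (hNS : NS_stmt) (S : Sys J K) (Φ : SFam S) (T : K → ℝ) :
    HasStrictFDerivAt (YB_f S Φ) (YB_equiv hNS S Φ T : (K → ℝ) →L[ℝ] (K → ℝ)) T := by
  have h1 : HasStrictFDerivAt (YB_f S Φ) ((YB_A S).comp (YB_D S Φ T)) T :=
    (YB_A S).hasStrictFDerivAt.comp T (YB_Z_strict S Φ T)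
  have h2 : (YB_equiv hNS S Φ T : (K → ℝ) →L[ℝ] (K → ℝ)) = (YB_A S).comp (YB_D S Φ T) := by
    ext w; rfl
  rw [h2]; exact h1

theorem YB_proper (S : Sys J K) (Φ : SFam S) (c : ℝ) (hc : 0 < c) :
    ∃ R : ℝ, ∀ T, (∀ k, |YB_f S Φ T k| ≤ Φ.lev k - c) → ∀ k, |T k| ≤ R := by
  refine ⟨Real.log (Φ.C / c), fun T hT k => ?_⟩
  have h1 := abs_le.mp (hT k)
  have hC := Φ.C_pos
  have hp := Φ.boxp T k
  have hm := Φ.boxm T k
  rw [YB_f_apply] at h1
  have h2 : c ≤ Φ.C * Real.exp (-(T k)) := by linarith [h1.2]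
  have h3 : c ≤ Φ.C * Real.exp (T k) := by linarith [h1.1]
  rw [abs_le]
  constructor
  · have h4 : Real.exp (-(T k)) ≤ Φ.C / c := by
      rw [le_div_iff₀ hc, Real.exp_neg, inv_mul_le_iff₀ (Real.exp_pos _)]
      linarith
    have := (Real.le_log_iff_exp_le (by positivity)).mpr h4
    linarith
  · have h4 : Real.exp (T k) ≤ Φ.C / c := by
      rw [le_div_iff₀ hc]
      have h5 : Real.exp (T k) * Real.exp (-(T k)) = 1 := by rw [← Real.exp_add]; simp
      have h6 := mul_le_mul_of_nonneg_left h2 (Real.exp_pos (T k)).le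
      calc Real.exp (T k) * c ≤ Real.exp (T k) * (Φ.C * Real.exp (-(T k))) := h6
        _ = Φ.C * (Real.exp (T k) * Real.exp (-(T k))) := by ring
        _ = Φ.C := by rw [h5, mul_one]
    exact (Real.le_log_iff_exp_le (by positivity)).mpr h4

theorem YB_lev_pos (S : Sys J K) (Φ : SFam S) (k : K) : 0 < Φ.lev k :=
  lt_of_le_of_lt (abs_nonneg _) (Φ.box 0 k)

/-- uniqueness over a point near the corner of the box -/
theorem YB_corner (hND : ND_stmt) (S : Sys J K) (Φ : SFam S) :
    ∃ y : K → ℝ, (∀ k, |y k| < Φ.lev k) ∧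
      ∀ T T', YB_f S Φ T = y → YB_f S Φ T' = y → T = T' := by
  obtain ⟨R, R', hR, hRR, hneg⟩ := hND J K S Φ
  -- a lower bound of the levels
  obtain ⟨m, hm0, hm⟩ : ∃ m : ℝ, 0 < m ∧ ∀ k, m ≤ Φ.lev k := by
    rcases isEmpty_or_nonempty K with hK | hK
    · exact ⟨1, one_pos, fun k => (hK.false k).elim⟩
    · obtain ⟨k0, hk0⟩ := Finite.exists_min (fun k => Φ.lev k)
      exact ⟨Φ.lev k0, YB_lev_pos S Φ k0, hk0⟩
  set Rm : ℝ := max R (Real.log (Φ.C / m)) with hRm
  obtain ⟨c, hc0, hc⟩ := Φ.boxc Rm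
  set δ : ℝ := min (c / 2) m with hδ
  have hδ0 : 0 < δ := lt_min (by linarith) hm0
  have hδc : δ < c := lt_of_le_of_lt (min_le_left _ _) (by linarith)
  have hδm : δ ≤ m := min_le_right _ _
  have hCpos := Φ.C_pos
  have hlarge : ∀ T : K → ℝ, YB_f S Φ T = (fun k => Φ.lev k - δ) → ∀ k, Rm < T k := by
    intro T hT k
    have h1 : om (S.e k) (Φ.Z T) = Φ.lev k - δ := congrFun hT k
    have h2 : Rm < |T k| := by
      by_contra hle
      have h3 := (le_abs_self _).trans (hc T k (not_lt.mp hle))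
      linarith
    rcases lt_abs.mp h2 with h | h
    · exact h
    · exfalso
      have h3 := Φ.boxm T k
      rw [h1] at h3
      have h4 : m ≤ Φ.C * Real.exp (T k) := by linarith [hm k]
      have h5 : T k < -Real.log (Φ.C / m) := by
        have := le_max_right R (Real.log (Φ.C / m))
        linarith
      have h6 : Real.exp (T k) < m / Φ.C := by
        have := Real.exp_lt_exp.mpr h5
        rwa [← Real.log_inv, Real.exp_log (by positivity), inv_div] at this
      rw [lt_div_iff₀ hCpos] at h6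
      linarith
  refine ⟨fun k => Φ.lev k - δ, fun k => ?_, fun T T' hT hT' => ?_⟩
  · have := hm k
    rw [abs_lt]
    constructor <;> linarith
  · by_contra hne
    have h1 := hlarge T hT
    have h2 := hlarge T' hT'
    set w : K → ℝ := T' - T with hw
    have hw0 : w ≠ 0 := fun h => hne (sub_eq_zero.mp h).symm
    -- the line
    have hline : ∀ s : ℝ, HasDerivAt (fun s : ℝ => om (S.ev w) (Φ.Z (T + s • w)))
        (om (S.ev w) (S.Xv w (Φ.Z (T + s • w)))) s := by
      intro s
      have h3 : HasDerivAt (fun s : ℝ => T + s • w) w s := by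
        simpa using ((hasDerivAt_id s).smul_const w).const_add T
      have h4 : HasFDerivAt Φ.Z (YB_D S Φ (T + s • w)) (T + s • w) := Φ.dZ _
      have h5 := h4.comp_hasDerivAt s h3
      have h6 := (omL (S.ev w)).hasFDerivAt.comp_hasDerivAt s h5
      rw [YB_D_apply] at h6
      exact h6
    have h01 : om (S.ev w) (Φ.Z (T + (0 : ℝ) • w)) = om (S.ev w) (Φ.Z (T + (1 : ℝ) • w)) := by
      have e1 : T + (0 : ℝ) • w = T := by simp
      have e2 : T + (1 : ℝ) • w = T' := by simp [hw]
      rw [e1, e2, om_ev_left, om_ev_left]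
      refine Finset.sum_congr rfl fun k _ => ?_
      have a1 : om (S.e k) (Φ.Z T) = Φ.lev k - δ := congrFun hT k
      have a2 : om (S.e k) (Φ.Z T') = Φ.lev k - δ := congrFun hT' k
      rw [a1, a2]
    obtain ⟨s, hs, hs0⟩ := exists_hasDerivAt_eq_zero (f := fun s : ℝ => om (S.ev w) (Φ.Z (T + s • w)))
      (f' := fun s : ℝ => om (S.ev w) (S.Xv w (Φ.Z (T + s • w)))) one_pos
      (fun x _ => (hline x).continuousAt.continuousWithinAt) h01 (fun x _ => hline x)
    have h7 : om (S.Xv w (Φ.Z (T + s • w))) (S.ev w) < 0 := by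
      refine hneg (T + s • w) (Or.inl fun k => ?_) w hw0
      have h8 : R ≤ Rm := le_max_left _ _
      have h9 : Rm < (T + s • w) k := by
        have h10 := h1 k
        have h11 := h2 k
        have h12 := hs.1
        have h13 := hs.2
        simp only [Pi.add_apply, Pi.smul_apply, smul_eq_mul, hw, Pi.sub_apply]
        nlinarith [mul_pos (sub_pos.mpr h13) (sub_pos.mpr h10), mul_pos h12 (sub_pos.mpr h11)]
      exact (h8.trans h9.le).trans (le_abs_self _)
    rw [om_anti, ← neg_zero, neg_lt_neg_iff] at h7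
    linarith

end

theorem YB_of (hND : ND_stmt) (hNS : NS_stmt) (hTB : TB_stmt) : YB_stmt := by
  intro J K _ _ _ _ S Φ y hy
  have hstrict := YB_f_strict hNS S Φ
  have h := hTB K (YB_f S Φ) Φ.lev
    (continuous_iff_continuousAt.mpr fun T => (hstrict T).continuousAt)
    (fun T => (hstrict T).map_nhds_eq_of_equiv)
    (fun T => ⟨((hstrict T).toOpenPartialHomeomorph _).source,
      ((hstrict T).toOpenPartialHomeomorph _).open_source.mem_nhds
        (hstrict T).mem_toOpenPartialHomeomorph_source,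
      ((hstrict T).toOpenPartialHomeomorph _).injOn⟩)
    (fun T k => Φ.box T k) (fun c hc => YB_proper S Φ c hc) (YB_corner hND S Φ) y hy
  obtain ⟨T, hT, huni⟩ := h
  exact ⟨T, fun k => congrFun hT k, fun T' hT' => huni T' (funext hT')⟩

end Pool.Agent.helper73.AD
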