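import Pool.Agent.helper55.AD.YB

/-!
YP: lifting of differentiable paths.
-/

namespace Pool.Agent.helper73.AD

open scoped BigOperators Topology

theorem YP_of (hNS : NS_stmt) (hYB : YB_stmt) : YP_stmt := by
  intro J K _ _ _ _ S Φ y y' U hU hy hbox
  have hex : ∀ t : ℝ, ∃ T : K → ℝ, t ∈ U → YB_f S Φ T = y t := by
    intro t
    by_cases ht : t ∈ U
    · obtain ⟨T, hT, -⟩ := hYB J K S Φ (y t) (hbox t ht)
      exact ⟨T, fun _ => funext hT⟩
    · exact ⟨0, fun h => (ht h).elim⟩
  choose Th hTh using hex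
  have huni : ∀ t ∈ U, ∀ T : K → ℝ, YB_f S Φ T = y t → Th t = T := by
    intro t ht T hT
    obtain ⟨T0, -, h0⟩ := hYB J K S Φ (y t) (hbox t ht)
    rw [h0 T (fun k => congrFun hT k), h0 (Th t) (fun k => congrFun (hTh t ht) k)]
  have hd : ∀ t : ℝ, ∃ d : K → ℝ, t ∈ U → HasDerivAt Th d t := by
    intro t
    by_cases ht : t ∈ U
    · have hs := YB_f_strict hNS S Φ (Th t)
      have h1 := hs.to_localInverse
      have h2 := hs.eventually_right_inverse
      rw [hTh t ht] at h1 h2
      have h3 : HasDerivAt (fun s => hs.localInverse (YB_f S Φ) _ (Th t) (y s)) _ t :=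
        h1.hasFDerivAt.comp_hasDerivAt t (hy t ht)
      refine ⟨_, fun _ => h3.congr_of_eventuallyEq ?_⟩
      have h4 := (hy t ht).continuousAt.eventually h2
      filter_upwards [h4, hU.mem_nhds ht] with s hs1 hs2
      exact huni s hs2 _ hs1
    · exact ⟨0, fun h => (ht h).elim⟩
  choose Th' hTh' using hd
  exact ⟨Th, Th', fun t ht => hTh' t ht, fun t ht k => congrFun (hTh t ht) k⟩

end Pool.Agent.helper73.AD
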